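import Pool.Agent.Lib.MP_af3a4a_an.P1.Final
import Pool.Agent.Lib.MP_af3a4a_an.P1.CHK.H58.GA
import Pool.Agent.Lib.MP_af3a4a_an.P1.CHK.H58.MW
import Pool.Agent.Lib.MP_af3a4a_an.P1.H81.Big250
import Pool.Agent.Lib.MP_af3a4a_an.P1.CHK.H21.Mid60

/-!
# `Low N` for `N ≥ 64` (council 2, helper77)
-/

set_option autoImplicit false

namespace Pool.Agent.Lib.MP_af3a4a_an.P1.H77

open Pool.Agent.Lib.MP_af3a4a_an.P1
open Pool.Agent.Lib.MP_af3a4a_an.P1.H80
open Pool.Agent.Lib.MP_af3a4a_an.P1.Final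

/-- `N ≥ 100`, `R ≤ 29/12` -/
theorem low_100 {N : ℕ} (hN : 100 ≤ N) : Low N := by
  intro z w R σ hC
  by_contra hcon
  push Not at hcon
  rcases le_total R (21 / 10) with h | h
  · rcases Nat.lt_or_ge N 250 with h1 | h1
    · exact CHK.H58.G.below_250 hN h1 hC h
    · exact H81.big250 h1 hC h
  · exact CHK.H58.M.mid24 hN hC h hcon

/-- `64 ≤ N < 100`, `R ≤ 29/12`, from the part `R ≤ 4/5` -/
theorem low_64_99_of {N : ℕ} (hN : 64 ≤ N) (hN1 : N < 100)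
    (hs : ∀ (z w : Fin N → ℂ) (R : ℝ) (σ : Fin N → ℂ), Cfg2 N z w R σ → R ≤ 4 / 5 → False) :
    Low N := by
  intro z w R σ hC
  by_contra hcon
  push Not at hcon
  rcases le_total R (4 / 5) with h | h
  · exact hs z w R σ hC h
  · exact CHK.H21.mid60 (by omega) hN1 hC h (by linarith)

end Pool.Agent.Lib.MP_af3a4a_an.P1.H77
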