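import Pool.Agent.Lib.MP_af3a4a_an.P1.H77.Glue
import Pool.Agent.Lib.MP_af3a4a_an.P1.H77.LowBig
import Pool.Agent.Lib.MP_af3a4a_an.P1.CHK.DATA.N3.Full
import Pool.Agent.Lib.MP_af3a4a_an.P1.CHK.DATA.N4.Full
import Pool.Agent.Lib.MP_af3a4a_an.P1.CHK.DATA.N4s.Full
import Pool.Agent.Lib.MP_af3a4a_an.P1.CHK.DATA.N5.Full
import Pool.Agent.Lib.MP_af3a4a_an.P1.CHK.DATA.N5s.Full
import Pool.Agent.Lib.MP_af3a4a_an.P1.CHK.DATA.N5t.Hi5
import Pool.Agent.Lib.MP_af3a4a_an.P1.CHK.DATA.Low2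
import Pool.Agent.Lib.MP_af3a4a_an.P1.CHK.DATA.Low3
import Pool.Agent.Lib.MP_af3a4a_an.P1.CHK.H81.Small64
import Pool.Agent.Lib.MP_af3a4a_an.P1.H11.High

/-!
# There is no counterexample in normal form (council 2)
-/

set_option autoImplicit false

namespace Pool.Agent.Lib.MP_af3a4a_an.P1.H77

open Pool.Agent.Lib.MP_af3a4a_an.P1
open Pool.Agent.Lib.MP_af3a4a_an.P1.H80
open Pool.Agent.Lib.MP_af3a4a_an.P1.Final

/-- **there is no counterexample in normal form** -/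
theorem final2 : FINAL2_S :=
  final2_glue CHK.DATA.N3.allBox
    (fun _ _ _ _ hC => no4 CHK.DATA.N4.allBox CHK.DATA.N4s.slab hC)
    (fun _ _ _ _ hC => no5 CHK.DATA.N5.allBox CHK.DATA.N5s.slab
      CHK.DATA.N5t.h5c hC)
    (low_all (fun _ h0 h1 => CHK.DATA.low_6_59 h0 h1) (fun _ h0 h1 => CHK.DATA.low_60_63 h0 h1)
      (fun _ h0 h1 => low_64_99_of h0 h1 fun _ _ _ _ hC hR => CHK.H81.L.small_64 hC h0 h1 hR)
      (fun _ h => low_100 h))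
    (fun _ hN _ _ _ _ hC => (H11.high6 hN hC).le)

end Pool.Agent.Lib.MP_af3a4a_an.P1.H77
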