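import Pool.Agent.Lib.MP_af3a4a_an.P1.Final
import Pool.Agent.Lib.MP_af3a4a_an.P1.H80.Contour

/-!
# The parts together exclude every configuration (council 2, helper77)
-/

set_option autoImplicit false

namespace Pool.Agent.Lib.MP_af3a4a_an.P1.H77

open Pool.Agent.Lib.MP_af3a4a_an.P1
open Pool.Agent.Lib.MP_af3a4a_an.P1.H80
open Pool.Agent.Lib.MP_af3a4a_an.P1.Final
open Pool.Agent.Lib.MP_af3a4a_an.P1.CHK.BOX

/-- `N = 4` from the boxes up to `R = 3` -/
theorem no4 (h4a : ChunkP 4 4 0 4096 0 101 0 1920) (h4b : ChunkP 4 4 0 4096 0 101 1920 3072)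
    {z w : Fin 4 → ℂ} {R : ℝ} {σ : Fin 4 → ℂ} (hC : Cfg2 4 z w R σ) : False := by
  have h1 := h4a.full le_rfl le_rfl hC
  have h2 := large_R hC
  have h3 : ((4 : ℕ) : ℝ) = 4 := by norm_num
  rw [h3] at h2
  push_cast at h1
  exact strip h4b le_rfl le_rfl hC (by push_cast; linarith) (by push_cast; linarith)

/-- `N = 5` from the boxes up to `R = 2592/1024` and the part `R ≥ 5/2` -/
theorem no5 (h5a : ChunkP 5 5 0 4096 0 101 0 2240) (h5b : ChunkP 5 5 0 4096 0 101 2208 2592)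
    (h5c : ∀ (z w : Fin 5 → ℂ) (R : ℝ) (σ : Fin 5 → ℂ), Cfg2 5 z w R σ → 5 / 2 ≤ R → False)
    {z w : Fin 5 → ℂ} {R : ℝ} {σ : Fin 5 → ℂ} (hC : Cfg2 5 z w R σ) : False := by
  have h1 := h5a.full le_rfl le_rfl hC
  push_cast at h1
  rcases le_total (5 / 2) R with h | h
  · exact h5c z w R σ hC h
  · exact strip h5b le_rfl le_rfl hC (by push_cast; linarith) (by push_cast; linarith)

/-- **glue** -/
theorem final2_glue (h3 : Box3)
    (h4 : ∀ (z w : Fin 4 → ℂ) (R : ℝ) (σ : Fin 4 → ℂ), Cfg2 4 z w R σ → False)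
    (h5 : ∀ (z w : Fin 5 → ℂ) (R : ℝ) (σ : Fin 5 → ℂ), Cfg2 5 z w R σ → False)
    (hLow : ∀ N, 6 ≤ N → Low N)
    (hHigh : ∀ N, 6 ≤ N → High N) : FINAL2_S := by
  refine final2_of h3 (fun N hN => ?_) (fun N hN => ?_)
  · rcases Nat.lt_or_ge N 6 with h | h
    · intro z w R σ hC
      have hN2 : N = 4 ∨ N = 5 := by omega
      rcases hN2 with e | e
      · subst e
        exact (h4 z w R σ hC).elim
      · subst e
        exact (h5 z w R σ hC).elim
    · exact hLow N h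
  · rcases Nat.lt_or_ge N 6 with h | h
    · intro z w R σ hC
      have hN2 : N = 4 ∨ N = 5 := by omega
      rcases hN2 with e | e
      · subst e
        exact (h4 z w R σ hC).elim
      · subst e
        exact (h5 z w R σ hC).elim
    · exact hHigh N h

/-- `Low N` for all `N ≥ 6` from the ranges -/
theorem low_all (h0 : ∀ N, 6 ≤ N → N ≤ 59 → Low N) (h1 : ∀ N, 60 ≤ N → N ≤ 63 → Low N)
    (h2 : ∀ N, 64 ≤ N → N < 100 → Low N) (h3 : ∀ N, 100 ≤ N → Low N) (N : ℕ) (hN : 6 ≤ N) :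
    Low N := by
  rcases Nat.lt_or_ge N 60 with a | a
  · exact h0 N hN (by omega)
  rcases Nat.lt_or_ge N 64 with b | b
  · exact h1 N a (by omega)
  rcases Nat.lt_or_ge N 100 with c | c
  · exact h2 N b c
  · exact h3 N c

end Pool.Agent.Lib.MP_af3a4a_an.P1.H77
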