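import Mathlib

/-!
# Borcea's inequality in product form gives the one for polynomials (council 2, helper77)
-/

set_option autoImplicit false

namespace Pool.Agent.Lib.MP_af3a4a_an.P1.H77

/-- the statement in product form gives the one for polynomials -/
theorem of_prod
    (H : ∀ (n : ℕ), 2 ≤ n → ∀ (z : Fin n → ℂ) (p : ℝ), 1 ≤ p → ∀ (c : ℂ) (k : Fin n),
      ∃ w : ℂ,
        (Polynomial.derivative (∏ j : Fin n, (Polynomial.X - Polynomial.C (z j)))).IsRoot w ∧
        ‖z k - w‖ ≤ ((1 / (n : ℝ)) * ∑ j : Fin n, ‖z j - c‖ ^ p) ^ (1 / p))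
    (F : Polynomial ℂ) (hF : 2 ≤ F.natDegree) (ζ : ℂ) (hζ : F.IsRoot ζ) :
    ∃ w : ℂ, (Polynomial.derivative F).IsRoot w ∧
      (∀ (c : ℂ) (p : ℝ), 1 ≤ p →
        ‖ζ - w‖ ≤ ((F.roots.map fun ξ => ‖ξ - c‖ ^ p).sum / F.natDegree) ^ (1 / p)) ∧
      ∀ (c : ℂ) (r : ℝ), (∀ ξ : ℂ, F.IsRoot ξ → ‖ξ - c‖ ≤ r) → ‖ζ - w‖ ≤ r := by
  have hF0 : F ≠ 0 := by
    rintro rfl
    simp at hF
  have hcard : F.roots.card = F.natDegree := by
    exact (IsAlgClosed.splits F).natDegree_eq_card_roots.symm
  set n := F.natDegree with hn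
  have hlen : F.roots.toList.length = n := by rw [Multiset.length_toList, hcard]
  let z : Fin n → ℂ := fun j => F.roots.toList.get (j.cast hlen.symm)
  have hz : F.roots = Multiset.map z Finset.univ.val := by
    have h1 : F.roots = (F.roots.toList : Multiset ℂ) := by rw [Multiset.coe_toList]
    have h2 : List.ofFn z = F.roots.toList := by
      apply List.ext_get
      · rw [List.length_ofFn, hlen]
      · intro i h3 h4
        simp [z]
    rw [h1, ← h2]
    rw [Fin.univ_val_map]
  have hprod : F = Polynomial.C F.leadingCoeff * ∏ j : Fin n, (Polynomial.X - Polynomial.C (z j)) := by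
    have h1 := (IsAlgClosed.splits F).eq_prod_roots
    conv_lhs => rw [h1]
    rw [hz, Multiset.map_map]
    rfl
  have hlc : F.leadingCoeff ≠ 0 := Polynomial.leadingCoeff_ne_zero.2 hF0
  have hder : ∀ w, (Polynomial.derivative F).IsRoot w ↔
      (Polynomial.derivative (∏ j : Fin n, (Polynomial.X - Polynomial.C (z j)))).IsRoot w := by
    intro w
    conv_lhs => rw [hprod]
    rw [Polynomial.derivative_C_mul, Polynomial.IsRoot.def, Polynomial.IsRoot.def,
      Polynomial.eval_mul, Polynomial.eval_C, mul_eq_zero, or_iff_right hlc]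
  have hk : ∃ k : Fin n, z k = ζ := by
    have h1 : ζ ∈ F.roots := (Polynomial.mem_roots hF0).2 hζ
    rw [hz, Multiset.mem_map] at h1
    obtain ⟨k, _, hk⟩ := h1
    exact ⟨k, hk⟩
  obtain ⟨k, rfl⟩ := hk
  have hsum : ∀ (c : ℂ) (p : ℝ), (F.roots.map fun ξ => ‖ξ - c‖ ^ p).sum =
      ∑ j : Fin n, ‖z j - c‖ ^ p := by
    intro c p
    rw [hz, Multiset.map_map]
    rfl
  have hd0 : Polynomial.derivative F ≠ 0 := by
    intro h0
    have := Polynomial.derivative_eq_zero.1 h0
    omega
  -- the critical point nearest to `z k`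
  have hne : (Polynomial.derivative F).roots.toFinset.Nonempty := by
    obtain ⟨w, hw, _⟩ := H n hF z 1 le_rfl 0 k
    exact ⟨w, by rw [Multiset.mem_toFinset, Polynomial.mem_roots hd0]; exact (hder w).2 hw⟩
  obtain ⟨w, hw, hmin⟩ := Finset.exists_min_image _ (fun w => ‖z k - w‖) hne
  rw [Multiset.mem_toFinset, Polynomial.mem_roots hd0] at hw
  have hmain : ∀ (c : ℂ) (p : ℝ), 1 ≤ p →
      ‖z k - w‖ ≤ ((1 / (n : ℝ)) * ∑ j : Fin n, ‖z j - c‖ ^ p) ^ (1 / p) := by
    intro c p hp
    obtain ⟨w', hw', hle⟩ := H n hF z p hp c k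
    have h1 := hmin w' (by rw [Multiset.mem_toFinset, Polynomial.mem_roots hd0]; exact (hder w').2 hw')
    exact h1.trans hle
  refine ⟨w, hw, fun c p hp => (hmain c p hp).trans (le_of_eq ?_), fun c r hr => ?_⟩
  · rw [hsum c p, one_div, inv_mul_eq_div]
  · have h2 := hmain c 1 le_rfl
    have hn0 : (0 : ℝ) < n := by
      have : 0 < n := by omega
      exact_mod_cast this
    have h3 : ∑ j : Fin n, ‖z j - c‖ ≤ n * r := by
      calc ∑ j : Fin n, ‖z j - c‖ ≤ ∑ _j : Fin n, r := by
            apply Finset.sum_le_sum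
            intro j _
            apply hr
            have h4 : z j ∈ F.roots := by
              rw [hz]
              exact Multiset.mem_map_of_mem z (Finset.mem_univ_val j)
            exact (Polynomial.mem_roots hF0).1 h4
        _ = n * r := by simp
    rw [div_one, Real.rpow_one] at h2
    simp only [Real.rpow_one] at h2
    calc ‖z k - w‖ ≤ 1 / (n : ℝ) * ∑ j : Fin n, ‖z j - c‖ := h2
      _ ≤ 1 / (n : ℝ) * (n * r) := by
          apply mul_le_mul_of_nonneg_left h3
          positivity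
      _ = r := by field_simp

end Pool.Agent.Lib.MP_af3a4a_an.P1.H77
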